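import Pool.Agent.TH980.F1

/-!
# One-endedness of the infinite cluster of the duplicated-current percolation model on `ℤ^d`

For every dimension `d ≥ 1` and every inverse temperature `β > 0`, the law `ω_β` of the
duplicated-current percolation model (limit `n → ∞`, then `h ↘ 0`, of the trace of the sum of two
independent sourceless currents with external fields `h` and `0`) exists, and almost surely every
infinite connected component of `ω_β` has one end.
-/

set_option autoImplicit false

open MeasureTheory

namespace Pool.Agent.Results.MP_164cef_pr.OneEnded

open Pool.Agent.TH980.Model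

theorem result (d : ℕ) (hd : 1 ≤ d) (β : ℝ) (hβ : 0 < β) :
    (∃ μ : Measure (Set (Edge d)), IsProbabilityMeasure μ ∧ IsLaw β μ) ∧
    ∀ μ : Measure (Set (Edge d)), IsProbabilityMeasure μ → IsLaw β μ →
      ∀ᵐ ω ∂μ, ∀ C : (graph ω).ConnectedComponent, C.supp.Infinite →
        HasOneEnd (graph ω) C :=
  Pool.Agent.TH980.main hd hβ

end Pool.Agent.Results.MP_164cef_pr.OneEnded
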